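import Pool.Agent.Lib.MP_436e1a_gt.Maps

/-! The working context: a manifold, an embedding into Euclidean space with a retraction, and a
regular covering (definitions only). -/

open scoped Manifold ContDiff Topology
open Set

namespace Pool.Agent.CSP

noncomputable section

/-- an embedding `ι` into Euclidean space and a submersive retraction `r` of a neighbourhood `U` -/
structure Amb (M : Mfd) where
  N : ℕ
  ι : M → E N
  r : E N → M
  U : Set (E N)
  ι_smooth : ContMDiff (𝓡 5) (𝓡 N) ∞ ι
  U_open : IsOpen U
  mem_U : ∀ x, ι x ∈ U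
  r_smooth : ContMDiffOn (𝓡 N) (𝓡 5) ∞ r U
  r_ι : ∀ x, r (ι x) = x
  r_subm : ∀ z ∈ U, Function.Surjective (mfderiv (𝓡 N) (𝓡 5) r z)

/-- a regular covering `q : Y → M` with deck group `G` (`Y` need not be connected) -/
structure Cov (M : Mfd) where
  G : Type
  [grp : Group G]
  Y : Type
  [top : TopologicalSpace Y]
  [act : MulAction G Y]
  q : Y → M
  cov : IsQuotientCoveringMap q G

attribute [instance] Cov.grp Cov.top Cov.act

/-- the working context -/
structure Ctx where
  M : Mfd
  A : Amb M
  C : Cov M

namespace Ctx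

variable (c : Ctx)

abbrev N : ℕ := c.A.N
abbrev G : Type := c.C.G
abbrev Y : Type := c.C.Y
abbrev q : c.Y → c.M := c.C.q
abbrev ι : c.M → E c.N := c.A.ι
abbrev r : E c.N → c.M := c.A.r
abbrev U : Set (E c.N) := c.A.U

/-- the retraction as a map of the ambient space -/
def ρ (z : E c.N) : E c.N := c.ι (c.r z)

/-- the ambient version of a map into the covering space -/
def am {V : Type} (f : V → c.Y) (v : V) : E c.N := c.ι (c.q (f v))

/-- the differential of the embedding, in the preferred chart -/
def dι (x : c.M) : E 5 →L[ℝ] E c.N := mfderiv (𝓡 5) (𝓡 c.N) c.ι x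

/-- the projection onto the tangent space at `x` -/
def P (x : c.M) : E c.N →L[ℝ] E c.N := fderiv ℝ c.ρ (c.ι x)

/-- `A` is a frame of the tangent space at `x`, of orientation `ε` -/
def Sgn (x : c.M) (A : E 5 →L[ℝ] E c.N) (ε : ℤˣ) : Prop :=
  ∃ B : E 5 →L[ℝ] E 5, A = (c.dι x).comp B ∧ 0 < ((ε : ℤ) : ℝ) * B.det

/-- `C` restricts to an orientation preserving isomorphism of the tangent space at `x` -/
def Cof (x : c.M) (C : E c.N →L[ℝ] E 5) : Prop := 0 < (C.comp (c.dι x)).det

section
variable {V : Type} [NormedAddCommGroup V] [NormedSpace ℝ V]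

/-- `f` is continuous on `O` and its ambient version is smooth on `O` (meant for open `O`) -/
def SmOn (f : V → c.Y) (O : Set V) : Prop := ContinuousOn f O ∧ ContDiffOn ℝ ∞ (c.am f) O

/-- `f` is smooth on an open neighbourhood of `K` -/
def SmNear (f : V → c.Y) (K : Set V) : Prop := ∃ O, IsOpen O ∧ K ⊆ O ∧ c.SmOn f O

end

/-- an orientation preserving diffeomorphism `dn` with an equivariant lift `up` -/
structure Aut where
  up : c.Y → c.Y
  dn : c.M → c.M
  cont : Continuous up
  equi : ∀ (g : c.G) y, up (g • y) = g • up y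
  comm : ∀ y, c.q (up y) = dn (c.q y)
  emb : Emb 1 dn univ
  surj : Function.Surjective dn

end Ctx

/-- the trivial covering -/
def Cov.triv (M : Mfd) : Cov M where
  G := PUnit
  Y := M
  act := { smul := fun _ x => x, one_smul := fun _ => rfl, mul_smul := fun _ _ _ => rfl }
  q := id
  cov :=
    letI : MulAction PUnit M :=
      { smul := fun _ x => x, one_smul := fun _ => rfl, mul_smul := fun _ _ _ => rfl }
    { toIsQuotientMap := Topology.IsQuotientMap.id
      continuous_const_smul := fun _ => continuous_id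
      apply_eq_iff_mem_orbit := ⟨fun h => ⟨1, h.symm⟩, fun ⟨_, h⟩ => h.symm⟩
      disjoint := fun _ => ⟨univ, Filter.univ_mem, fun _ _ => rfl⟩ }

/-- the context of the trivial covering -/
abbrev Ctx.triv (M : Mfd) (A : Amb M) : Ctx := ⟨M, A, Cov.triv M⟩

end

end Pool.Agent.CSP
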