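import Pool.Agent.Lib.MP_436e1a_gt.Ctx

/-! Links of 2-spheres, families, crossings, steps and chains; framed links (definitions only).
Everything is lifted to the covering space `c.Y`. -/

open scoped Manifold ContDiff Topology RealInnerProductSpace
open Set

namespace Pool.Agent.CSP

noncomputable section

/-- the datum of a crossing: component `i` meets `g •` component `j` with sign `ε` -/
structure Dat (ι G : Type) where
  i : ι
  j : ι
  g : G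
  ε : ℤˣ

/-- the slice of a family at time `t` -/
def sl {ι V Y : Type} (F : ι → ℝ × V → Y) (t : ℝ) (i : ι) (x : V) : Y := F i (t, x)

open scoped Classical in
/-- signed number of crossings of component `i` with `g •` component `j` in a list; an entry
`(j, i, g⁻¹, ε)` counts as `(i, j, g, -ε)` -/
def chi {ι G : Type} [Group G] (l : List (Dat ι G)) (i j : ι) (g : G) : ℤ :=
  (l.map fun δ => (if δ.i = i ∧ δ.j = j ∧ δ.g = g then (δ.ε : ℤ) else 0) -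
    (if δ.i = j ∧ δ.j = i ∧ δ.g = g⁻¹ then (δ.ε : ℤ) else 0)).sum

open scoped Classical in
/-- number of entries with label `(i, i, g)` -/
def cnt {ι G : Type} (l : List (Dat ι G)) (i : ι) (g : G) : ℕ :=
  l.countP fun δ => decide (δ.i = i ∧ δ.j = i ∧ δ.g = g)

namespace Ctx

variable (c : Ctx) {ι : Type}

/-- `f` is an immersion of the sphere -/
def Imm (f : E 3 → c.Y) : Prop :=
  ∀ x ∈ S2, ∀ v : E 3, ⟪x, v⟫ = 0 → fderiv ℝ (c.am f) x v = 0 → v = 0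

/-- a link: disjointly embedded smooth spheres in `c.M`, with lifts -/
structure Link (L : ι → E 3 → c.Y) : Prop where
  sm : ∀ i, c.SmNear (L i) S2
  imm : ∀ i, c.Imm (L i)
  inj : ∀ i j, ∀ x ∈ S2, ∀ y ∈ S2, c.q (L i x) = c.q (L j y) → i = j ∧ x = y

/-- a smooth family of maps of spheres -/
def Fam (F : ι → ℝ × E 3 → c.Y) : Prop := ∀ i, c.SmNear (F i) (Icc 0 1 ×ˢ S2)

/-- a regular homotopy -/
def Reg (f : ℝ × E 3 → c.Y) : Prop := ∀ t ∈ Icc (0 : ℝ) 1, c.Imm fun x => f (t, x)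

/-- an isotopy of links -/
def Iso (F : ι → ℝ × E 3 → c.Y) : Prop := c.Fam F ∧ ∀ t ∈ Icc (0 : ℝ) 1, c.Link (sl F t)

/-- the frame of a coincidence of `f` at `(t, x)` and `g` at `(t, y)` -/
def crossFr (f g : ℝ × E 3 → c.Y) (t : ℝ) (x y v₁ v₂ w₁ w₂ : E 3) : E 5 →L[ℝ] E c.N :=
  fr ![fderiv ℝ (c.am f) (t, x) (0, v₁), fderiv ℝ (c.am f) (t, x) (0, v₂),
    -fderiv ℝ (c.am g) (t, y) (0, w₁), -fderiv ℝ (c.am g) (t, y) (0, w₂),
    fderiv ℝ (c.am f) (t, x) (1, 0) - fderiv ℝ (c.am g) (t, y) (1, 0)]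

/-- a transverse coincidence of sign `ε` of the families `f` and `g` of spheres -/
def Cross (f g : ℝ × E 3 → c.Y) (ε : ℤˣ) (t : ℝ) (x y : E 3) : Prop :=
  f (t, x) = g (t, y) ∧ ∃ v₁ v₂ w₁ w₂, OB x v₁ v₂ ∧ OB y w₁ w₂ ∧
    c.Sgn (c.q (f (t, x))) (c.crossFr f g t x y v₁ v₂ w₁ w₂) ε

/-- a regular family with exactly one double point, transverse, with datum `δ` -/
structure StepFam (F : ι → ℝ × E 3 → c.Y) (δ : Dat ι c.G) : Prop where
  fam : c.Fam F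
  reg : ∀ i, c.Reg (F i)
  one : ∃ t₀ ∈ Ioo (0 : ℝ) 1, ∃ x₀ ∈ S2, ∃ y₀ ∈ S2, ¬ (δ.i = δ.j ∧ x₀ = y₀) ∧
    c.Cross (F δ.i) (fun p => δ.g • F δ.j p) δ.ε t₀ x₀ y₀ ∧
    ∀ t ∈ Icc (0 : ℝ) 1, ∀ k l, ∀ x ∈ S2, ∀ y ∈ S2, c.q (F k (t, x)) = c.q (F l (t, y)) →
      (k = l ∧ x = y) ∨ (t = t₀ ∧ ((k = δ.i ∧ x = x₀ ∧ l = δ.j ∧ y = y₀) ∨
        (k = δ.j ∧ x = y₀ ∧ l = δ.i ∧ y = x₀)))

/-- equivalence by a diffeomorphism with an equivariant lift -/
def Eqv (L L' : ι → E 3 → c.Y) : Prop := ∃ φ : c.Aut, ∀ i, ∀ x ∈ S2, φ.up (L i x) = L' i x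

/-- a crossing change -/
def Step (L : ι → E 3 → c.Y) (δ : Dat ι c.G) (L' : ι → E 3 → c.Y) : Prop :=
  ∃ F, c.StepFam F δ ∧ c.Eqv L (sl F 0) ∧ c.Eqv (sl F 1) L'

/-- a chain of crossing changes -/
inductive Chain : (ι → E 3 → c.Y) → List (Dat ι c.G) → (ι → E 3 → c.Y) → Prop
  | nil {L L'} : c.Eqv L L' → Chain L [] L'
  | cons {L L₁ L' δ l} : c.Step L δ L₁ → Chain L₁ l L' → Chain L (δ :: l) L'

/-- the ordered double points of one family of spheres with label `g` -/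
def Zs (f : ℝ × E 3 → c.Y) (g : c.G) : Set (ℝ × E 3 × E 3) :=
  {p | p.1 ∈ Icc (0 : ℝ) 1 ∧ p.2.1 ∈ S2 ∧ p.2.2 ∈ S2 ∧ p.2.1 ≠ p.2.2 ∧
    f (p.1, p.2.1) = g • f (p.1, p.2.2)}

/-- the double points with label `g` are finite in number and transverse -/
def Nd (f : ℝ × E 3 → c.Y) (g : c.G) : Prop :=
  (c.Zs f g).Finite ∧ ∀ p ∈ c.Zs f g, ∃ ε, c.Cross f (fun w => g • f w) ε p.1 p.2.1 p.2.2

/-- a framed link: germs along `Sc` of orientation preserving embeddings with disjoint cores -/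
structure FL (h : ι → E 5 → c.Y) : Prop where
  sm : ∀ i, c.SmNear (h i) Sc
  sgn : ∀ i, ∀ v ∈ Sc, c.Sgn (c.q (h i v)) (fderiv ℝ (c.am (h i)) v) 1
  inj : ∀ i j, ∀ v ∈ Sc, ∀ w ∈ Sc, c.q (h i v) = c.q (h j w) → i = j ∧ v = w

/-- the tangent bundle is trivial along `a` on `K`: there is a continuous coframe -/
def Flat {V : Type} [TopologicalSpace V] (a : V → c.Y) (K : Set V) : Prop :=
  ∃ C : V → E c.N →L[ℝ] E 5, ContinuousOn C K ∧ ∀ x ∈ K, c.Cof (c.q (a x)) (C x)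

end Ctx

/-- the cores of a framed link -/
def core {ι Y : Type} (h : ι → E 5 → Y) (i : ι) (x : E 3) : Y := h i (inc x)

/-- a torsion sphere: `a ∘ dd` extends over the ball -/
def Tors {Y : Type} [TopologicalSpace Y] (a : E 3 → Y) : Prop :=
  ContinuousOn a S2 ∧ ∃ D : E 3 → Y, ContinuousOn D B3 ∧ ∀ x ∈ S2, D x = a (dd x)

/-- two maps of the sphere have disjoint images -/
def Dj {Y : Type} (a b : E 3 → Y) : Prop := ∀ x ∈ S2, ∀ y ∈ S2, a x ≠ b y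

end

end Pool.Agent.CSP
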