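import Pool.Agent.Lib.MP_436e1a_gt.Stmt

/-! Explicit maps of `E 3` and `E 5` (definitions only). In `E 3` the first two coordinates form a
complex number `z`, the last one is the height `s`. -/

open scoped RealInnerProductSpace
open Set

namespace Pool.Agent.CSP

noncomputable section

/-- the unit sphere of `E 3` -/
abbrev S2 : Set (E 3) := Metric.sphere 0 1

/-- the closed unit ball of `E 3` -/
abbrev B3 : Set (E 3) := Metric.closedBall 0 1

/-- radial projection to the unit sphere -/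
def nrm {n : ℕ} (x : E n) : E n := ‖x‖⁻¹ • x

/-- the determinant with rows `x`, `v`, `w` -/
def det3 (x v w : E 3) : ℝ :=
  x 0 * (v 1 * w 2 - v 2 * w 1) - x 1 * (v 0 * w 2 - v 2 * w 0) + x 2 * (v 0 * w 1 - v 1 * w 0)

/-- `(v, w)` is an oriented basis of the plane orthogonal to `x` -/
def OB (x v w : E 3) : Prop := ⟪x, v⟫ = 0 ∧ ⟪x, w⟫ = 0 ∧ 0 < det3 x v w

/-- the linear map with columns `a k` -/
def fr {n : ℕ} {W : Type} [NormedAddCommGroup W] [NormedSpace ℝ W] (a : Fin n → W) :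
    E n →L[ℝ] W :=
  ∑ k, (EuclideanSpace.proj k : E n →L[ℝ] ℝ).smulRight (a k)

/-- `(z, s) ↦ (z ^ 3, s)` -/
def cub0 (x : E 3) : E 3 := !₂[x 0 ^ 3 - 3 * x 0 * x 1 ^ 2, 3 * x 0 ^ 2 * x 1 - x 1 ^ 3, x 2]

/-- the homogeneous cubic map `(z, s) ↦ (z ^ 3, s * ‖(z, s)‖ ^ 2)`; it agrees with `cub0` on `S2` -/
def cub (x : E 3) : E 3 :=
  !₂[x 0 ^ 3 - 3 * x 0 * x 1 ^ 2, 3 * x 0 ^ 2 * x 1 - x 1 ^ 3, x 2 * (x 0 ^ 2 + x 1 ^ 2 + x 2 ^ 2)]

/-- the map of degree three of the sphere -/
def dd (x : E 3) : E 3 := nrm (cub x)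

/-- the north pole -/
def npole : E 3 := !₂[0, 0, 1]

/-- the pinch map; it doubles the polar angle, maps `B3` to `B3`, `S2` to `S2` and the plane `s = 0`
to the south pole -/
def pin (x : E 3) : E 3 := !₂[2 * x 2 * x 0, 2 * x 2 * x 1, 2 * x 2 ^ 2 - 1]

/-- the sum of two maps of the sphere (or of the ball), meant for `a (-npole) = b npole` -/
def ssum {Y : Type} (a b : E 3 → Y) (x : E 3) : Y := if 0 ≤ x 2 then a (pin x) else b (-pin x)

/-- reflection of the height -/
def rf3 (x : E 3) : E 3 := !₂[x 0, x 1, -x 2]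

/-- `E 3` as the first three coordinates of `E 5` -/
def inc (x : E 3) : E 5 := !₂[x 0, x 1, x 2, 0, 0]

/-- the first three coordinates -/
def pr3 (v : E 5) : E 3 := !₂[v 0, v 1, v 2]

/-- the standard 2-sphere in `E 5` -/
def Sc : Set (E 5) := inc '' S2

/-- the standard tubular neighbourhood `S2 × E 3 → E 5` of `Sc`, a diffeomorphism onto
`{v | pr3 v ≠ 0}` -/
def tube (u w : E 3) : E 5 :=
  !₂[Real.exp (w 0) * u 0, Real.exp (w 0) * u 1, Real.exp (w 0) * u 2, w 1, w 2]

/-- the orientation preserving involution with `rf5 (tube u w) = tube (rf3 u) (rf3 w)` -/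
def rf5 (v : E 5) : E 5 := !₂[v 0, v 1, -v 2, v 3, -v 4]

/-- reflection of the last coordinate of `E 5` -/
def rfl5 (v : E 5) : E 5 := !₂[v 0, v 1, v 2, v 3, -v 4]

/-- the gnomonic chart of the open upper hemisphere, applied to `z` -/
def gn (x : E 3) : E 3 := nrm !₂[x 0, x 1, 1]

/-- an unknotted sphere in the tube that links the core three times -/
def kap (ε : ℝ) (u : E 3) : E 5 := tube (gn u) (ε • cub0 u)

/-- an embedding of `E 5` into the tube (Jacobian positive for `0 < ε`) with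
`Lam ε (inc u) = kap ε u` -/
def Lam (ε : ℝ) (v : E 5) : E 5 := tube (gn (pr3 v)) (ε • (cub0 (pr3 v) + !₂[v 3, v 4, 0]))

/-- the cable of degree three of the core; a surgery turns it into `kap ε` -/
def sig (ε : ℝ) (u : E 3) : E 5 := tube (dd u) ((ε * ‖cub0 u‖) • gn u)

/-- the meridian of the core (on `B3`: the normal disc) -/
def mer (ε : ℝ) (u : E 3) : E 5 := tube npole (ε • u)

/-- a parallel copy of the core; a surgery turns `mer ε` into it -/
def par (ε : ℝ) (u : E 3) : E 5 := tube u (ε • npole)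

/-- the identity (`false`) or the reflection (`true`) -/
def rfb (b : Bool) (x : E 3) : E 3 := if b then rf3 x else x

/-- `a` and `b` are homotopic as maps of the set `K` -/
def HtpOn {V Y : Type} [TopologicalSpace V] [TopologicalSpace Y] (K : Set V) (a b : V → Y) : Prop :=
  ∃ H : ℝ × V → Y, ContinuousOn H (Icc 0 1 ×ˢ K) ∧ (∀ x ∈ K, H (0, x) = a x) ∧
    ∀ x ∈ K, H (1, x) = b x

/-- `A` is covered by countably many smooth images of open subsets of `E k` -/
def Thin {V : Type} [NormedAddCommGroup V] [NormedSpace ℝ V] (k : ℕ) (A : Set V) : Prop :=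
  ∃ (O : ℕ → Set (E k)) (φ : ℕ → E k → V),
    (∀ n, IsOpen (O n) ∧ ContDiffOn ℝ (⊤ : ℕ∞) (φ n) (O n)) ∧ A ⊆ ⋃ n, φ n '' O n

end

end Pool.Agent.CSP
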