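import Mathlib

/-! Closed oriented smooth 5-manifolds and their connected sums. -/

open scoped Manifold ContDiff

namespace Pool.Agent.CSP

/-- Euclidean `n`-space -/
abbrev E (n : ℕ) : Type := EuclideanSpace ℝ (Fin n)

/-- A closed connected oriented smooth 5-manifold; the orientation is given by the atlas, all of
whose transition maps have positive Jacobian determinant. -/
structure Mfd where
  carrier : Type
  [top : TopologicalSpace carrier]
  [cs : ChartedSpace (E 5) carrier]
  [mf : IsManifold (𝓡 5) ∞ carrier]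
  [t2 : T2Space carrier]
  [cpt : CompactSpace carrier]
  [conn : ConnectedSpace carrier]
  ori : ∀ e ∈ atlas (E 5) carrier, ∀ e' ∈ atlas (E 5) carrier,
    ∀ v ∈ (e.symm.trans e').source, 0 < (fderiv ℝ (e.symm.trans e') v).det

attribute [instance] Mfd.top Mfd.cs Mfd.mf Mfd.t2 Mfd.cpt Mfd.conn

instance : CoeSort Mfd Type := ⟨Mfd.carrier⟩

section
variable {M N : Type} [TopologicalSpace M] [ChartedSpace (E 5) M] [TopologicalSpace N]
  [ChartedSpace (E 5) N]

/-- the Jacobian determinant of `f` at `x`, read in the preferred charts at `x` and `f x` -/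
noncomputable def jac (f : M → N) (x : M) : ℝ :=
  ContinuousLinearMap.det (show E 5 →L[ℝ] E 5 from mfderiv (𝓡 5) (𝓡 5) f x)

/-- `f` is smooth and injective on `W` with Jacobian determinant of the sign of `s`: on an open set
`W` this is a smooth open embedding, preserving (`s = 1`) or reversing (`s = -1`) orientation -/
def Emb (s : ℝ) (f : M → N) (W : Set M) : Prop :=
  ContMDiffOn (𝓡 5) (𝓡 5) ∞ f W ∧ Set.InjOn f W ∧ ∀ x ∈ W, 0 < s * jac f x

end

/-- `X` is a connected sum of `M` and `N`: there are discs `i` in `M` (orientation preserving) and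
`j` in `N` (orientation reversing) such that `X` is the union of copies of `M` minus `i 0` and `N`
minus `j 0`, glued by `i v = j (v / ‖v‖ ^ 2)` -/
def IsSum (M N X : Mfd) : Prop :=
  ∃ (i : E 5 → M) (j : E 5 → N) (a : M → X) (b : N → X),
    Emb 1 i Set.univ ∧ Emb (-1) j Set.univ ∧ Emb 1 a {i 0}ᶜ ∧ Emb 1 b {j 0}ᶜ ∧
    (∀ z : X, (∃ x, x ≠ i 0 ∧ a x = z) ∨ ∃ y, y ≠ j 0 ∧ b y = z) ∧
    ∀ x, x ≠ i 0 → ∀ y, y ≠ j 0 →
      (a x = b y ↔ ∃ v : E 5, v ≠ 0 ∧ x = i v ∧ y = j ((‖v‖ ^ 2)⁻¹ • v))

end Pool.Agent.CSP
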